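import Pool.Agent.Helper78.DT.Goals2

/-!
# MP_34c247_lc, project DT of helper78, packet PTN: Horner modulo `R` and digits
-/

set_option autoImplicit false

namespace Pool.Agent.Helper87.DT

open Pool.Agent.Helper81.CC Pool.Agent.Helper78.DT

theorem horner (R d x : ℕ) (cs : ℕ → ℕ) : ∀ j ≤ d,
    Nat.rec (motive := fun _ => ℕ) 0 (fun k acc => (acc * x + cs (d - 1 - k)) % R) j =
      (∑ i ∈ Finset.range j, cs (d - j + i) * x ^ i) % R := by
  intro j
  induction j with
  | zero => intro _; simp
  | succ j ih =>
    intro hj
    have h1 := ih (by omega)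
    change ((Nat.rec (motive := fun _ => ℕ) 0 (fun k acc => (acc * x + cs (d - 1 - k)) % R) j) * x
      + cs (d - 1 - j)) % R = _
    rw [h1, Finset.sum_range_succ', Nat.add_mod, Nat.mod_mul_mod, ← Nat.add_mod]
    congr 2
    · rw [Finset.sum_mul]
      refine Finset.sum_congr rfl fun i _ => ?_
      rw [pow_succ, ← mul_assoc]
      congr 3
      omega
    · rw [pow_zero, mul_one, Nat.add_zero, Nat.sub_sub, Nat.add_comm 1 j]

theorem iter_div (b i : ℕ) : ∀ n : ℕ, (fun s => s / b)^[i] n = n / b ^ i := by
  induction i with
  | zero => intro n; simp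
  | succ i ih =>
    intro n
    rw [Function.iterate_succ_apply, ih, Nat.div_div_eq_div_mul, pow_succ, Nat.mul_comm]

theorem ptn : PtnStmt := by
  intro α _
  refine ⟨?_, ?_⟩
  · intro R d x cs hR hRp hd hx hcs
    have h1 := PolyTime.nat_rec_bd (n := d) (s0 := fun _ : α => 0)
      (step := fun a k acc => (acc * x a + cs a (d a - 1 - k)) % R a) hd (by fun_prop)
      (by
        have h2 : PolyTime (fun z : α × ℕ × ℕ => cs z.1 (d z.1 - 1 - z.2.1)) :=
          PolyTime.comp (g := fun z : α × ℕ => cs z.1 z.2)
            (f := fun z : α × ℕ × ℕ => (z.1, d z.1 - 1 - z.2.1)) hcs (by fun_prop)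
        fun_prop)
      (B := fun a => 2 * R a + 1)
      (((PBd.const 2).mul (PBd.nat hRp)).add (PBd.const 1)) (by
        intro a k _
        rw [sz_nat]
        have : Nat.rec (motive := fun _ => ℕ) 0
            (fun k acc => (acc * x a + cs a (d a - 1 - k)) % R a) k < R a := by
          cases k with
          | zero => exact hR a
          | succ k => exact Nat.mod_lt _ (hR a)
        omega)
    refine PolyTime.congr h1 fun a => ?_
    rw [horner (R a) (d a) (x a) (cs a) (d a) le_rfl]
    unfold pv
    simp
  · intro b n i hb hn hi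
    have h1 := PolyTime.iterate_bd (n := i) (s0 := n) (step := fun a s => s / b a) hi hn
      (by fun_prop) (B := fun a => 2 * n a + 1)
      (((PBd.const 2).mul (PBd.nat hn)).add (PBd.const 1)) (by
        intro a k _
        rw [sz_nat, iter_div]
        have := Nat.div_le_self (n a) (b a ^ k)
        omega)
    have h2 : PolyTime fun a => ((fun s => s / b a)^[i a] (n a)) % b a := by fun_prop
    refine PolyTime.congr h2 fun a => ?_
    rw [iter_div]
    rfl

end Pool.Agent.Helper87.DT
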